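import Pool.Agent.H72.CH.Targets
import Pool.Agent.H44.FB.Basics

/-!
# Chains of equivalence relations: row RGE

An endomorphism which preserves the levels and maps all pairs to rigid pairs.
-/

set_option autoImplicit false

namespace Pool.Agent.H73.CH

open Pool.Agent.H68.BP Pool.Agent.H58.SF Pool.Agent.H53.NR
open Pool.Agent.H57.AR (tp ty Ty)
open Pool.Agent.H57.EQ (Cx)
open Pool.Agent.H44.KR (Tyi TpOn)
open Pool.Agent.H44.FB
open Pool.Agent.H72.CH

variable {V : Type} {ρ σ : Sig}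

/-- The rigidity of a pair depends only on its type. -/
private theorem rgd_tp {𝔸 : Str σ V} {𝔹 : Str ρ V} (ht : Tyi 𝔸 𝔹) (hemb : EmbC 𝔹)
    {p q : Fin 2 → V} (h : tp 𝔹 p = tp 𝔹 q) (hp : Rgd 𝔸 (p 0) (p 1)) : Rgd 𝔸 (q 0) (q 1) := by
  obtain ⟨ε, hε, hpq⟩ := hemb (Fin 2) p q h
  have hεh : IsHom 𝔸 𝔸 ε := (en_of_emb ht hε).1
  intro g hg
  obtain ⟨g1, hg1, h0, h1⟩ := hp (fun v => g (ε v)) (fun l x hx => hg l _ (hεh l x hx))
  refine ⟨fun v => ε (g1 v), fun l x hx => hεh l _ (hg1 l x hx), ?_, ?_⟩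
  · show ε (g1 (g (q 0))) = q 0
    rw [← hpq 0, h0]
  · show ε (g1 (g (q 1))) = q 1
    rw [← hpq 1, h1]

theorem pf_RGE : T_RGE := by
  classical
  intro V ρ σ 𝔹 m lv 𝔸 hV ht hcpt hemb hram ⟨e, he, hrgd⟩
  have hcV : Countable V := hV.cnt
  obtain ⟨f, -, hf⟩ := hcpt V ∅ id (fun Y F => (∀ (l : Fin σ.m) (z : Fin (σ.ar l) → V),
      (∀ i, z i ∈ Y) → 𝔸 l z → 𝔸 l (fun i => F (z i))) ∧
      ∀ x ∈ Y, ∀ y ∈ Y, lv (F x) (F y) = lv x y ∧ Rgd 𝔸 (F x) (F y))
    (fun Y => by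
      obtain ⟨k, y, hy⟩ := hram Y.card fun a => (Y.equivFin.symm a).1
      obtain ⟨φ, h1, h2⟩ := hy (fun a => e (y a)) (fun l z hz => he l _ (hz ()))
      have h3 : ∀ v (hv : v ∈ Y), (if h : v ∈ Y then e (y (φ (Y.equivFin ⟨v, h⟩))) else v) =
          e (y (φ (Y.equivFin ⟨v, hv⟩))) := fun v hv => dif_pos hv
      refine ⟨fun v => if h : v ∈ Y then e (y (φ (Y.equivFin ⟨v, h⟩))) else v,
        ⟨fun l z hz hA => ?_, fun a ha b hb => ?_⟩, fun x hx => absurd hx (Finset.notMem_empty x)⟩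
      · have h5 : (fun i => if h : z i ∈ Y then e (y (φ (Y.equivFin ⟨z i, h⟩))) else z i) =
            fun i => e (y (φ (Y.equivFin ⟨z i, hz i⟩))) := funext fun i => h3 _ (hz i)
        show 𝔸 l (fun i => if h : z i ∈ Y then e (y (φ (Y.equivFin ⟨z i, h⟩))) else z i)
        rw [h5]
        refine he l _ ?_
        refine tyi_rel ht h1.symm l (fun i => Y.equivFin ⟨z i, hz i⟩) ?_
        have h6 : (fun i => (Y.equivFin.symm (Y.equivFin ⟨z i, hz i⟩)).1) = z := by
          funext i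
          rw [Equiv.symm_apply_apply]
        rw [h6]
        exact hA
      · have h4 := h2 (Y.equivFin ⟨a, ha⟩) (Y.equivFin ⟨b, hb⟩)
        rw [Equiv.symm_apply_apply, Equiv.symm_apply_apply] at h4
        show lv (if h : a ∈ Y then e (y (φ (Y.equivFin ⟨a, h⟩))) else a)
            (if h : b ∈ Y then e (y (φ (Y.equivFin ⟨b, h⟩))) else b) = lv a b ∧
          Rgd 𝔸 (if h : a ∈ Y then e (y (φ (Y.equivFin ⟨a, h⟩))) else a)
            (if h : b ∈ Y then e (y (φ (Y.equivFin ⟨b, h⟩))) else b)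
        rw [h3 a ha, h3 b hb]
        exact ⟨h4, hrgd _ _⟩)
    (fun Y Y' F hY h => ⟨fun l z hz => h.1 l z fun i => hY (hz i),
      fun x hx y hy => h.2 x (hY hx) y (hY hy)⟩)
    (fun Y F F' h hF => ⟨fun l z hz hA => tyi_on ht hF l z (fun i => hz i) (h.1 l z hz hA),
      fun x hx y hy => by
        have h1 : tp 𝔹 (fun w => F ((![x, y] : Fin 2 → V) w)) =
            tp 𝔹 (fun w => F' ((![x, y] : Fin 2 → V) w)) :=
          tpo_comp hF (![x, y] : Fin 2 → V) (fun w => by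
            fin_cases w
            · exact hx
            · exact hy)
        have h2 := hV.inv _ _ h1
        have h3 := rgd_tp ht hemb h1 (h.2 x hx y hy).2
        exact ⟨h2.symm.trans (h.2 x hx y hy).1, h3⟩⟩)
  refine ⟨f, fun l x hx => ?_, fun x y => ?_, fun x y => ?_⟩
  · exact (hf (Finset.univ.image x)).1 l x
      (fun i => Finset.mem_image_of_mem x (Finset.mem_univ i)) hx
  · exact ((hf {x, y}).2 x (Finset.mem_insert_self _ _) y
      (Finset.mem_insert_of_mem (Finset.mem_singleton_self _))).1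
  · exact ((hf {x, y}).2 x (Finset.mem_insert_self _ _) y
      (Finset.mem_insert_of_mem (Finset.mem_singleton_self _))).2

end Pool.Agent.H73.CH
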