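import Pool.Agent.H32.CH.Targets

/-! MP_aaa807_co, row GC: good positions on a cycle give a good set. -/

set_option autoImplicit false
set_option linter.unusedSectionVars false

namespace Pool.Agent.H73.CH.GC

open Finset Pool.Agent.H32.CH
open scoped Classical

/-- adjacent positions on the cycle -/
theorem adj_pos {V : Type} [Fintype V] {G : SimpleGraph V} {C : Finset V} {n : ℕ} {f : ℕ → V}
    (hn : 3 ≤ n) (hE : Enum G C n f) {i j : ℕ} (hi : i < n) (hj : j < n)
    (h : G.Adj (f i) (f j)) : j = (i + 1) % n ∨ i = (j + 1) % n := by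
  rcases lt_trichotomy i j with hij | hij | hij
  · rcases hE.2.2.2 i j hij hj h with h1 | ⟨h1, h2⟩
    · left
      rw [Nat.mod_eq_of_lt (by omega)]
      exact h1
    · right
      have e : j + 1 = n := by omega
      rw [e, Nat.mod_self]
      exact h1
  · subst hij
    exact absurd h (G.loopless.irrefl _)
  · rcases hE.2.2.2 j i hij hi h.symm with h1 | ⟨h1, h2⟩
    · right
      rw [Nat.mod_eq_of_lt (by omega)]
      exact h1
    · left
      have e : i + 1 = n := by omega
      rw [e, Nat.mod_self]
      exact h1

theorem mod_pred {n m t : ℕ} (hm : m < n) (ht : 1 ≤ t) (h : t % n = (m + 1) % n) :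
    m = (t - 1) % n := by
  have h1 : (t - 1) + 1 ≡ m + 1 [MOD n] := by
    have e : (t - 1) + 1 = t := by omega
    rw [e]
    exact h
  have h2 : (t - 1) ≡ m [MOD n] := Nat.ModEq.add_right_cancel' 1 h1
  have h3 : (t - 1) % n = m % n := h2
  rw [h3, Nat.mod_eq_of_lt hm]

theorem pf_GC : T_GC := by
  intro V _ G C n f s hn hE _hadj hs
  obtain ⟨hsr, hsi, hsw⟩ := hs
  have hn0 : 0 < n := by omega
  refine ⟨?_, ?_, ?_⟩
  · rw [hE.2.1]
    exact image_subset_image hsr
  · intro x hx y hy hxy
    obtain ⟨i, hi, rfl⟩ := mem_image.1 hx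
    obtain ⟨j, hj, rfl⟩ := mem_image.1 hy
    have hin := mem_range.1 (hsr hi)
    have hjn := mem_range.1 (hsr hj)
    rcases adj_pos hn hE hin hjn hxy with h | h
    · exact hsi i hi (h ▸ hj)
    · exact hsi j hj (h ▸ hi)
  · intro K hK
    obtain ⟨hKA, ⟨⟨x, hx⟩, hconn⟩, hcl⟩ := hK
    have hxC := mem_sdiff.1 (hKA hx)
    have hx1 : x ∈ (range n).image f := by
      rw [← hE.2.1]
      exact hxC.1
    obtain ⟨p, hp, hpx⟩ := mem_image.1 hx1
    have hpn := mem_range.1 hp
    have hps : p ∉ s := fun h => hxC.2 (mem_image.2 ⟨p, h, hpx⟩)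
    -- the position q = p + 6 n
    obtain ⟨q, hq⟩ : ∃ q, q = p + n * 6 := ⟨_, rfl⟩
    have hqm : q % n = p := by
      rw [hq, Nat.add_mul_mod_self_left, Nat.mod_eq_of_lt hpn]
    have hq18 : 18 ≤ q := by omega
    have win : ∀ a : ℕ, ∃ i < 6, (a + i) % n ∈ s := by
      intro a
      obtain ⟨i, hi, h⟩ := hsw (a % n) (Nat.mod_lt _ hn0)
      refine ⟨i, hi, ?_⟩
      rwa [Nat.mod_add_mod] at h
    -- the last position before q
    obtain ⟨a, ha⟩ : ∃ a, a = Nat.findGreatest (fun t => t % n ∈ s) q := ⟨_, rfl⟩
    have has : a % n ∈ s := by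
      obtain ⟨i, hi, h⟩ := win (q - 5)
      rw [ha]
      exact Nat.findGreatest_spec (P := fun t => t % n ∈ s) (m := q - 5 + i) (by omega) h
    have haq : a ≤ q := by
      rw [ha]
      exact Nat.findGreatest_le q
    have hag : ∀ t, a < t → t ≤ q → t % n ∉ s := by
      intro t h1 h2
      rw [ha] at h1
      exact Nat.findGreatest_is_greatest (P := fun t => t % n ∈ s) h1 h2
    have hbex : ∃ b, q ≤ b ∧ b % n ∈ s := by
      obtain ⟨i, hi, h⟩ := win q
      exact ⟨q + i, by omega, h⟩
    obtain ⟨b, hb⟩ : ∃ b, b = Nat.find hbex := ⟨_, rfl⟩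
    have hbs : q ≤ b ∧ b % n ∈ s := by
      rw [hb]
      exact Nat.find_spec hbex
    have hbm : ∀ t, q ≤ t → t < b → t % n ∉ s := by
      intro t h1 h2 h3
      rw [hb] at h2
      exact Nat.find_min hbex h2 ⟨h1, h3⟩
    have haq' : a < q := by
      rcases Nat.lt_or_ge a q with h | h
      · exact h
      · exfalso
        have e : a = q := by omega
        rw [e, hqm] at has
        exact hps has
    have hbq' : q < b := by
      rcases Nat.lt_or_ge q b with h | h
      · exact h
      · exfalso
        have e : b = q := by omega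
        have h2 := hbs.2
        rw [e, hqm] at h2
        exact hps h2
    have hab : ∀ t, a < t → t < b → t % n ∉ s := by
      intro t h1 h2
      rcases Nat.lt_or_ge t q with h | h
      · exact hag t h1 (by omega)
      · exact hbm t h h2
    have hlen : b ≤ a + 6 := by
      obtain ⟨i, hi, h⟩ := win (a + 1)
      by_contra hcon
      exact hab (a + 1 + i) (by omega) (by omega) h
    -- the arc
    obtain ⟨X, hX⟩ : ∃ X, X = K ∩ (Ioo a b).image (fun t => f (t % n)) := ⟨_, rfl⟩
    have hXK : X = K := by
      apply hconn X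
      · rw [hX]
        exact inter_subset_left
      · refine ⟨x, ?_⟩
        rw [hX, mem_inter]
        refine ⟨hx, mem_image.2 ⟨q, mem_Ioo.2 ⟨haq', hbq'⟩, ?_⟩⟩
        show f (q % n) = x
        rw [hqm]
        exact hpx
      · intro y hy z hz hyz
        rw [hX, mem_inter] at hy
        obtain ⟨t, ht, hty⟩ := mem_image.1 hy.2
        have ht' := mem_Ioo.1 ht
        have hzC := mem_sdiff.1 (hKA hz)
        have hz1 : z ∈ (range n).image f := by
          rw [← hE.2.1]
          exact hzC.1
        obtain ⟨m, hm, hmz⟩ := mem_image.1 hz1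
        have hmn := mem_range.1 hm
        have hms : m ∉ s := fun h => hzC.2 (mem_image.2 ⟨m, h, hmz⟩)
        have hadj : G.Adj (f (t % n)) (f m) := by
          rw [hmz]
          have e : f (t % n) = y := hty
          rw [e]
          exact hyz
        rw [hX, mem_inter]
        refine ⟨hz, ?_⟩
        rcases adj_pos hn hE (Nat.mod_lt t hn0) hmn hadj with h | h
        · rw [Nat.mod_add_mod] at h
          have h1 : t + 1 < b := by
            rcases Nat.lt_or_ge (t + 1) b with h2 | h2
            · exact h2
            · exfalso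
              have e : t + 1 = b := by omega
              rw [e] at h
              exact hms (h ▸ hbs.2)
          refine mem_image.2 ⟨t + 1, mem_Ioo.2 ⟨by omega, h1⟩, ?_⟩
          show f ((t + 1) % n) = z
          rw [← h]
          exact hmz
        · have h0 := mod_pred hmn (by omega : 1 ≤ t) h
          have h1 : a < t - 1 := by
            rcases Nat.lt_or_ge a (t - 1) with h2 | h2
            · exact h2
            · exfalso
              have e : t - 1 = a := by omega
              rw [e] at h0
              exact hms (h0 ▸ has)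
          refine mem_image.2 ⟨t - 1, mem_Ioo.2 ⟨h1, by omega⟩, ?_⟩
          show f ((t - 1) % n) = z
          rw [← h0]
          exact hmz
    have h5 : X.card ≤ (Ioo a b).card := by
      rw [hX]
      exact (card_le_card inter_subset_right).trans card_image_le
    rw [Nat.card_Ioo] at h5
    rw [← hXK]
    omega

end Pool.Agent.H73.CH.GC
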