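import Pool.Agent.H32.CH.Targets

/-! MP_aaa807_co, row M7: no chain K2 - x1 - k1 - x2 - k2 - x3 - K2. -/

set_option autoImplicit false
set_option linter.unusedSectionVars false

namespace Pool.Agent.H73.CH.M7

open Finset Pool.Agent.H32.CH
open scoped Classical

variable {V : Type} [Fintype V] {G : SimpleGraph V}

theorem flipin (h1 : T_M1) (h2 : T_M2) (hd : Deg4 G) {B : Finset V} (hB : MinC G B) {v a c : V}
    (hv : v ∉ B) (hac : a ≠ c) (ha : a ∉ B) (hc : c ∉ B) (hva : G.Adj v a) (hvc : G.Adj v c) :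
    MinC G (insert v B) := by
  have h3 : dg G Bᶜ v ≤ 2 := (h1 V G B hd hB).2 v hv
  have h4 : 2 ≤ dg G Bᶜ v :=
    dg_ge_two hac (mem_compl.2 ha) (mem_compl.2 hc) hva hvc
  exact ((h2 V G B hd hB).2 v hv (by omega)).2

theorem no_three (h1 : T_M1) (hd : Deg4 G) {B : Finset V} (hB : MinC G B) {v a b c : V}
    (hv : v ∉ B) (hab : a ≠ b) (hac : a ≠ c) (hbc : b ≠ c) (ha : a ∉ B) (hb : b ∉ B) (hc : c ∉ B)
    (hva : G.Adj v a) (hvb : G.Adj v b) (hvc : G.Adj v c) : False := by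
  have h3 : dg G Bᶜ v ≤ 2 := (h1 V G B hd hB).2 v hv
  have h4 : 3 ≤ dg G Bᶜ v :=
    dg_ge_three hab hac hbc (mem_compl.2 ha) (mem_compl.2 hb) (mem_compl.2 hc) hva hvb hvc
  omega

theorem pf_M7 (h1 : T_M1) (h2 : T_M2) : T_M7 := by
  intro V _ G A hd ht hE x₁ x₂ x₃ b₁ k₁ k₂ b₂ hx1 hx2 hx3 h12 h23 h13 n13 hb1 hb2 hk1 hk2 hkk
    hb1k1 hb2k2 hb12 nb12 e1 e2 e3 e4 e5 e6
  have n12 : ¬ G.Adj x₂ x₁ := ht x₁ k₁ x₂ e2 e3
  have n23 : ¬ G.Adj x₃ x₂ := ht x₂ k₂ x₃ e4 e5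
  obtain ⟨hx1A, hx1d⟩ := hx1
  obtain ⟨hx2A, hx2d⟩ := hx2
  obtain ⟨hx3A, hx3d⟩ := hx3
  obtain ⟨hb1A, hb1d⟩ := hb1
  obtain ⟨hb2A, hb2d⟩ := hb2
  -- the three flips
  have m1 : MinC G (A.erase x₁) := ((h2 V G A hd hE.1).1 x₁ hx1A hx1d).2
  have d2 : dg G (A.erase x₁) x₂ = 2 := by rw [dg_erase_not n12]; exact hx2d
  have x2in : x₂ ∈ A.erase x₁ := mem_erase.2 ⟨h12.symm, hx2A⟩
  have m2 : MinC G ((A.erase x₁).erase x₂) := ((h2 V G _ hd m1).1 x₂ x2in d2).2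
  have d3 : dg G ((A.erase x₁).erase x₂) x₃ = 2 := by
    rw [dg_erase_not n23, dg_erase_not (fun h => n13 h.symm)]; exact hx3d
  have x3in : x₃ ∈ (A.erase x₁).erase x₂ := mem_erase.2 ⟨h23.symm, mem_erase.2 ⟨h13.symm, hx3A⟩⟩
  have m3 : MinC G (((A.erase x₁).erase x₂).erase x₃) := ((h2 V G _ hd m2).1 x₃ x3in d3).2
  obtain ⟨B, hB⟩ : ∃ B, B = ((A.erase x₁).erase x₂).erase x₃ := ⟨_, rfl⟩
  rw [← hB] at m3
  have hcB : B.card + 3 = A.card := by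
    rw [hB]
    have c1 := card_erase_add_one hx1A
    have c2 := card_erase_add_one x2in
    have c3 := card_erase_add_one x3in
    omega
  have nx1 : x₁ ∉ B := by rw [hB]; simp
  have nx2 : x₂ ∉ B := by rw [hB]; simp
  have nx3 : x₃ ∉ B := by rw [hB]; simp
  have hBA : ∀ y, y ∉ A → y ∉ B := by
    intro y hy hyB
    rw [hB] at hyB
    exact hy (mem_of_mem_erase (mem_of_mem_erase (mem_of_mem_erase hyB)))
  have ne : ∀ {x y : V}, x ∈ A → y ∉ A → x ≠ y := by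
    rintro x y hx hy rfl
    exact hy hx
  obtain ⟨w1, hw1, ew1⟩ := dg_pos.1 (Nat.pos_of_ne_zero hb1d)
  obtain ⟨w2, hw2, ew2⟩ := dg_pos.1 (Nat.pos_of_ne_zero hb2d)
  have hw1' : w1 ∉ A := mem_compl.1 hw1
  have hw2' : w2 ∉ A := mem_compl.1 hw2
  have q1 : b₁ ≠ k₂ := by
    rintro rfl
    exact no_three h1 hd m3 (hBA _ hb1A) h12 h13 h23 nx1 nx2 nx3 e1 e4.symm e5
  have q2 : b₂ ≠ k₁ := by
    rintro rfl
    exact no_three h1 hd m3 (hBA _ hb2A) h12 h13 h23 nx1 nx2 nx3 e2.symm e3 e6.symm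
  have q3 : w2 ≠ b₁ := by
    rintro rfl
    exact nb12 ew2.symm
  have q4 : w2 ≠ k₁ := by
    rintro rfl
    exact no_three h1 hd m3 (hBA _ hk1) h12 (ne hx1A hb2A) (ne hx2A hb2A) nx1 nx2 (hBA _ hb2A)
      e2.symm e3 ew2.symm
  have q5 : w2 ≠ k₂ := by
    rintro rfl
    exact no_three h1 hd m3 (hBA _ hk2) h23 (ne hx2A hb2A) (ne hx3A hb2A) nx2 nx3 (hBA _ hb2A)
      e4.symm e5 ew2.symm
  have m4 : MinC G (insert b₁ B) :=
    flipin h1 h2 hd m3 (hBA _ hb1A) (ne hx1A hw1') nx1 (hBA _ hw1') e1 ew1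
  have s1 : k₁ ∉ insert b₁ B := by
    simp only [mem_insert, not_or]
    exact ⟨hb1k1.symm, hBA _ hk1⟩
  have m5 : MinC G (insert k₁ (insert b₁ B)) := by
    refine flipin h1 h2 hd m4 s1 h12 ?_ ?_ e2.symm e3
    · simp only [mem_insert, not_or]
      exact ⟨ne hx1A hb1A, nx1⟩
    · simp only [mem_insert, not_or]
      exact ⟨ne hx2A hb1A, nx2⟩
  have s2 : k₂ ∉ insert k₁ (insert b₁ B) := by
    simp only [mem_insert, not_or]
    exact ⟨hkk.symm, q1.symm, hBA _ hk2⟩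
  have m6 : MinC G (insert k₂ (insert k₁ (insert b₁ B))) := by
    refine flipin h1 h2 hd m5 s2 h23 ?_ ?_ e4.symm e5
    · simp only [mem_insert, not_or]
      exact ⟨ne hx2A hk1, ne hx2A hb1A, nx2⟩
    · simp only [mem_insert, not_or]
      exact ⟨ne hx3A hk1, ne hx3A hb1A, nx3⟩
  have s3 : b₂ ∉ insert k₂ (insert k₁ (insert b₁ B)) := by
    simp only [mem_insert, not_or]
    exact ⟨hb2k2, q2, hb12.symm, hBA _ hb2A⟩
  have m7 : MinC G (insert b₂ (insert k₂ (insert k₁ (insert b₁ B)))) := by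
    refine flipin h1 h2 hd m6 s3 (ne hx3A hw2') ?_ ?_ e6.symm ew2
    · simp only [mem_insert, not_or]
      exact ⟨ne hx3A hk2, ne hx3A hk1, ne hx3A hb1A, nx3⟩
    · simp only [mem_insert, not_or]
      exact ⟨q5, q4, q3, hBA _ hw2'⟩
  have hc := hE.2 _ m7
  rw [card_insert_of_notMem s3, card_insert_of_notMem s2, card_insert_of_notMem s1,
    card_insert_of_notMem (hBA _ hb1A)] at hc
  omega

end Pool.Agent.H73.CH.M7
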