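import Pool.Agent.H32.CH.Targets

/-! MP_aaa807_co, row MAIN: all chromons have at most 5 vertices. -/

set_option autoImplicit false
set_option linter.unusedSectionVars false

namespace Pool.Agent.H73.CH.MAIN

open Finset Pool.Agent.H32.CH
open scoped Classical

theorem pf_MAIN (h1 : T_T1) (h2 : T_SEL) (h3 : T_VB) : T_MAIN := by
  intro V _ G hd ht h5 h7
  obtain ⟨A, hA, hZ⟩ := h1 V G hd ht
  obtain ⟨S, M, hSA, hS2, hSi, hK, hDM, hMT, hMm⟩ := h2 V G A hd ht h5 h7 hA.1 hZ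
  refine ⟨A \ S, hK, ?_⟩
  have e : (A \ S)ᶜ = Aᶜ ∪ S := by
    ext y
    have := @hSA y
    simp only [mem_compl, mem_sdiff, mem_union]
    tauto
  rw [e]
  exact h3 V G A S M hd ht hA.1 hSA hS2 hSi hDM hMT hMm

end Pool.Agent.H73.CH.MAIN
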